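import Pool.Agent.R972.OP.Stm4
import Pool.Agent.Y849.RG.One
import Pool.Agent.Y592.RG.Norm

/-!
# OP3-PGD: the Poincaré inequality for samples with smooth positive log-concave densities
-/

set_option autoImplicit false

namespace Pool.Agent.R455.OP3

open MeasureTheory Set Filter Topology
open scoped ENNReal InnerProductSpace
open Pool.Agent.W695.KH (Eu)
open Pool.Agent.Y506.RG (EW VW GD ND OB)
open Pool.Agent.R972.OP

variable {n : ℕ}

/-! ### measurability and integrability -/

theorem int_prod {f : ℝ → ℝ} (hf : Integrable f) :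
    Integrable (fun x : Eu (Fin n) => ∏ i, f (x i)) := by
  rw [← (PiLp.volume_preserving_toLp (Fin n)).integrable_comp_emb
    (MeasurableEquiv.toLp 2 (Fin n → ℝ)).measurableEmbedding]
  exact Integrable.fintype_prod (fun _ => hf)

theorem ms_co (i : Fin n) : Measurable fun x : Eu (Fin n) => x i :=
  Continuous.measurable (by fun_prop)

theorem ms_Cn (R : Fin n → Fin n → Prop) : MeasurableSet (Cn R) := by
  have h : Cn R = ⋂ i, ⋂ j, {x : Eu (Fin n) | R i j → x i ≤ x j} := by
    ext x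
    simp [Cn]
  rw [h]
  refine MeasurableSet.iInter fun i => MeasurableSet.iInter fun j => ?_
  by_cases hR : R i j
  · have h1 : {x : Eu (Fin n) | R i j → x i ≤ x j} = {x | x i ≤ x j} := by
      ext x
      simp [hR]
    rw [h1]
    exact measurableSet_le (ms_co i) (ms_co j)
  · have h1 : {x : Eu (Fin n) | R i j → x i ≤ x j} = univ := by
      ext x
      simp [hR]
    rw [h1]
    exact MeasurableSet.univ

theorem ms_wR (R : Fin n → Fin n → Prop) {f : ℝ → ℝ} (hf : Measurable f) :
    Measurable (wR R f) := by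
  refine Measurable.indicator ?_ (ms_Cn R)
  exact Finset.measurable_prod _ fun i _ => hf.comp (ms_co i)

theorem ms_trc {f : ℝ → ℝ} (hf : Measurable f) (T : ℝ) : Measurable (trc T f) :=
  hf.indicator measurableSet_Icc

theorem trc_nonneg {f : ℝ → ℝ} (h0 : ∀ s, 0 ≤ f s) (T s : ℝ) : 0 ≤ trc T f s :=
  Set.indicator_nonneg (fun s _ => h0 s) s

theorem trc_le {f : ℝ → ℝ} (h0 : ∀ s, 0 ≤ f s) (T s : ℝ) : trc T f s ≤ f s :=
  Set.indicator_le_self' (fun s _ => h0 s) s

theorem wR_nonneg (R : Fin n → Fin n → Prop) {f : ℝ → ℝ} (h0 : ∀ s, 0 ≤ f s) (x : Eu (Fin n)) :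
    0 ≤ wR R f x :=
  Set.indicator_nonneg (fun y _ => Finset.prod_nonneg fun i _ => h0 (y i)) x

theorem wR_le (R : Fin n → Fin n → Prop) {f : ℝ → ℝ} (h0 : ∀ s, 0 ≤ f s) (x : Eu (Fin n)) :
    wR R f x ≤ ∏ i, f (x i) :=
  Set.indicator_le_self' (fun y _ => Finset.prod_nonneg fun i _ => h0 (y i)) x

theorem wR_trc_le (R : Fin n → Fin n → Prop) {f : ℝ → ℝ} (h0 : ∀ s, 0 ≤ f s) (T : ℝ)
    (x : Eu (Fin n)) : |wR R (trc T f) x| ≤ ∏ i, f (x i) := by
  rw [abs_of_nonneg (wR_nonneg R (trc_nonneg h0 T) x)]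
  refine (wR_le R (trc_nonneg h0 T) x).trans ?_
  exact Finset.prod_le_prod (fun i _ => trc_nonneg h0 T _) fun i _ => trc_le h0 T _

/-! ### limit of the truncation -/

theorem conv {f : ℝ → ℝ} (h0 : ∀ s, 0 ≤ f s) (hm : Measurable f) (hf : Integrable f)
    (R : Fin n → Fin n → Prop) {v : Eu (Fin n) → ℝ} (hv : Measurable v) {B : ℝ}
    (hB : ∀ x, |v x| ≤ B) :
    Tendsto (fun k : ℕ => ∫ x, v x * wR R (trc ((k : ℝ) + 1) f) x) atTop
      (𝓝 (∫ x, v x * wR R f x)) := by
  refine tendsto_integral_of_dominated_convergence (fun x => B * ∏ i, f (x i)) ?_ ?_ ?_ ?_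
  · intro k
    exact (hv.mul (ms_wR R (ms_trc hm _))).aestronglyMeasurable
  · exact (int_prod hf).const_mul B
  · intro k
    refine Eventually.of_forall fun x => ?_
    rw [Real.norm_eq_abs, abs_mul]
    exact mul_le_mul (hB x) (wR_trc_le R h0 _ x) (abs_nonneg _) ((abs_nonneg _).trans (hB x))
  · refine Eventually.of_forall fun x => ?_
    refine tendsto_const_nhds.congr' ?_
    obtain ⟨N, hN⟩ := exists_nat_ge (∑ i, |x i|)
    filter_upwards [eventually_ge_atTop N] with k hk
    have h1 : ∀ i, trc ((k : ℝ) + 1) f (x i) = f (x i) := by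
      intro i
      have h2 : |x i| ≤ ∑ j, |x j| :=
        Finset.single_le_sum (f := fun j => |x j|) (fun j _ => abs_nonneg _) (Finset.mem_univ i)
      have h3 : (N : ℝ) ≤ k := by exact_mod_cast hk
      have h4 : |x i| ≤ (k : ℝ) + 1 := by linarith
      exact Set.indicator_of_mem (Set.mem_Icc.2 (abs_le.1 h4)) _
    have h5 : wR R (trc ((k : ℝ) + 1) f) x = wR R f x := by
      by_cases hx : x ∈ Cn R
      · simp only [wR, Set.indicator_of_mem hx, h1]
      · simp only [wR, Set.indicator_of_notMem hx]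
    rw [h5]

theorem conv1 {f : ℝ → ℝ} (h0 : ∀ s, 0 ≤ f s) (hm : Measurable f) (hf : Integrable f)
    (R : Fin n → Fin n → Prop) :
    Tendsto (fun k : ℕ => ∫ x : Eu (Fin n), wR R (trc ((k : ℝ) + 1) f) x) atTop
      (𝓝 (∫ x, wR R f x)) := by
  have h := conv h0 hm hf R (v := fun _ => 1) measurable_const (B := 1) (fun x => by simp)
  simpa using h

theorem convE {f : ℝ → ℝ} (h0 : ∀ s, 0 ≤ f s) (hm : Measurable f) (hf : Integrable f)
    (R : Fin n → Fin n → Prop) (hR : ∫ x, wR R f x ≠ 0) {v : Eu (Fin n) → ℝ} (hv : Measurable v)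
    {B : ℝ} (hB : ∀ x, |v x| ≤ B) :
    Tendsto (fun k : ℕ => EW (wR R (trc ((k : ℝ) + 1) f)) v) atTop (𝓝 (EW (wR R f) v)) :=
  (conv h0 hm hf R hv hB).div (conv1 h0 hm hf R) hR

/-! ### the hypothesis of the truncated inequality -/

theorem trhyp {f : ℝ → ℝ} {C : ℝ} (hf : ND f) (hC : OB C f) {T : ℝ} (hT : 0 < T) (t : ℝ)
    (ht : |t| ≤ T) :
    (∫ s in (-T)..t, f s) * (∫ s in t..T, f s) ≤ C * f t * ∫ s in (-T)..T, f s := by
  have hab := abs_le.1 ht
  have hi : ∀ a b : ℝ, IntervalIntegrable f volume a b := fun a b => hf.int0.intervalIntegrable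
  have hn : ∀ a b : ℝ, a ≤ b → 0 ≤ ∫ s in a..b, f s := fun a b h =>
    intervalIntegral.integral_nonneg h fun s _ => (hf.pos s).le
  have hC0 : 0 ≤ C := zero_le_one.trans hC.one_le
  have hsum : (∫ s in (-T)..t, f s) + ∫ s in t..T, f s = ∫ s in (-T)..T, f s :=
    intervalIntegral.integral_add_adjacent_intervals (hi _ _) (hi _ _)
  have hCf : 0 ≤ C * f t := mul_nonneg hC0 (hf.pos t).le
  rcases le_total 0 t with h | h
  · have h1 : ∫ s in t..T, f s ≤ C * f t := by
      refine le_trans ?_ (hC.right t h)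
      rw [intervalIntegral.integral_of_le hab.2]
      exact setIntegral_mono_set hf.int0.integrableOn
        (Eventually.of_forall fun s => (hf.pos s).le) (Ioc_subset_Ioi_self.eventuallyLE)
    have h2 : ∫ s in (-T)..t, f s ≤ ∫ s in (-T)..T, f s := by
      have := hn t T hab.2
      linarith
    calc (∫ s in (-T)..t, f s) * (∫ s in t..T, f s)
        ≤ (∫ s in (-T)..T, f s) * (C * f t) :=
          mul_le_mul h2 h1 (hn _ _ hab.2) (hn _ _ (by linarith))
      _ = _ := by ring
  · have h1 : ∫ s in (-T)..t, f s ≤ C * f t := by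
      refine le_trans ?_ (hC.left t h)
      rw [intervalIntegral.integral_of_le hab.1]
      exact setIntegral_mono_set hf.int0.integrableOn
        (Eventually.of_forall fun s => (hf.pos s).le) (Ioc_subset_Iic_self.eventuallyLE)
    have h2 : ∫ s in t..T, f s ≤ ∫ s in (-T)..T, f s := by
      have := hn (-T) t hab.1
      linarith
    exact mul_le_mul h1 h2 (hn _ _ hab.2) hCf

/-! ### the normalised inequality -/

theorem norm_ineq (h : S_TRU) {C : ℝ} {f : ℝ → ℝ} (hf : ND f) (hC : OB C f)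
    (R : Fin n → Fin n → Prop) {g : Eu (Fin n) → ℝ} (hg : ContDiff ℝ 1 g)
    (hb : ∃ B : ℝ, ∀ x, |g x| ≤ B) (hl : ∃ L : ℝ, ∀ x, ‖fderiv ℝ g x‖ ≤ L) :
    VW (wR R f) g ≤ 4 * C ^ 2 * EW (wR R f) fun x => ‖fderiv ℝ g x‖ ^ 2 := by
  obtain ⟨B, hB⟩ := hb
  obtain ⟨L, hL⟩ := hl
  have hC0 : 0 ≤ C := zero_le_one.trans hC.one_le
  by_cases hR : ∫ x, wR R f x = 0
  · simp [VW, EW, hR]
  · have h0 : ∀ s, 0 ≤ f s := fun s => (hf.pos s).le
    have hm : Measurable f := hf.cont.measurable
    have hgc : Measurable g := hg.continuous.measurable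
    have hdc : Measurable fun x => ‖fderiv ℝ g x‖ ^ 2 :=
      ((hg.continuous_fderiv (by norm_num)).norm.pow 2).measurable
    have e1 := convE h0 hm hf.int0 R hR hgc hB
    have e2 := convE h0 hm hf.int0 R hR (v := fun x => g x ^ 2) (hgc.pow_const 2) (B := B ^ 2)
      (fun x => by
        rw [abs_pow]
        exact pow_le_pow_left₀ (abs_nonneg _) (hB x) 2)
    have e3 := convE h0 hm hf.int0 R hR hdc (B := L ^ 2)
      (fun x => by
        rw [abs_of_nonneg (by positivity)]
        exact pow_le_pow_left₀ (norm_nonneg _) (hL x) 2)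
    refine le_of_tendsto_of_tendsto' (e2.sub (e1.pow 2)) (e3.const_mul (4 * C ^ 2)) fun k => ?_
    have hT : (0 : ℝ) < (k : ℝ) + 1 := by positivity
    exact h n R f ((k : ℝ) + 1) C hf.pos hf.cont hT hC0 (fun t ht => trhyp hf hC hT t ht) g hg

/-! ### the substitution -/

/-- the constant vector -/
noncomputable def cst (m : ℝ) : Eu (Fin n) := WithLp.toLp 2 fun _ => m

theorem cst_apply (m : ℝ) (i : Fin n) : (cst m : Eu (Fin n)) i = m := rfl

theorem wR_sub {h f : ℝ → ℝ} {σ z m : ℝ} (hσ : 0 < σ) (hh : ∀ s, h s = z * f ((s - m) / σ))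
    (R : Fin n → Fin n → Prop) (y : Eu (Fin n)) :
    wR R h (cst m + σ • y) = z ^ n * wR R f y := by
  have e : ∀ i, (cst m + σ • y : Eu (Fin n)) i = m + σ * y i := fun i => rfl
  have e1 : ∀ i, h ((cst m + σ • y : Eu (Fin n)) i) = z * f (y i) := by
    intro i
    rw [hh, e]
    congr 2
    field_simp
    ring
  have hmem : (cst m + σ • y : Eu (Fin n)) ∈ Cn R ↔ y ∈ Cn R := by
    simp only [Cn, Set.mem_ofPred_eq, e]
    constructor
    · intro H i j hij
      have := H i j hij
      have h1 : σ * y i ≤ σ * y j := by linarith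
      exact le_of_mul_le_mul_left h1 hσ
    · intro H i j hij
      have := mul_le_mul_of_nonneg_left (H i j hij) hσ.le
      linarith
  by_cases hy : y ∈ Cn R
  · rw [wR, wR, Set.indicator_of_mem (hmem.2 hy), Set.indicator_of_mem hy]
    simp only [e1]
    rw [Finset.prod_mul_distrib]
    simp
  · rw [wR, wR, Set.indicator_of_notMem (fun H => hy (hmem.1 H)), Set.indicator_of_notMem hy,
      mul_zero]

theorem int_sub {σ : ℝ} (hσ : 0 < σ) (m : ℝ) (G : Eu (Fin n) → ℝ) :
    ∫ y : Eu (Fin n), G (cst m + σ • y) = (σ ^ n)⁻¹ * ∫ x, G x := by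
  have h1 := Measure.integral_comp_smul (volume : Measure (Eu (Fin n))) (fun x => G (cst m + x)) σ
  rw [h1, integral_add_left_eq_self]
  simp only [finrank_euclideanSpace, Fintype.card_fin, smul_eq_mul]
  rw [abs_of_pos (by positivity)]

theorem EW_sub {h f : ℝ → ℝ} {σ z m : ℝ} (hσ : 0 < σ) (hz : 0 < z)
    (hh : ∀ s, h s = z * f ((s - m) / σ)) (R : Fin n → Fin n → Prop) (v : Eu (Fin n) → ℝ) :
    EW (wR R h) v = EW (wR R f) fun y => v (cst m + σ • y) := by
  have hσn : (0 : ℝ) < (σ ^ n)⁻¹ := by positivity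
  have hzn : (0 : ℝ) < z ^ n := by positivity
  have h1 : (σ ^ n)⁻¹ * ∫ x, v x * wR R h x =
      z ^ n * ∫ y, v (cst m + σ • y) * wR R f y := by
    rw [← int_sub hσ m fun x => v x * wR R h x, ← integral_const_mul]
    refine integral_congr_ae (Eventually.of_forall fun y => ?_)
    simp only [wR_sub hσ hh R y]
    ring
  have h2 : (σ ^ n)⁻¹ * ∫ x, wR R h x = z ^ n * ∫ y, wR R f y := by
    rw [← int_sub hσ m fun x => wR R h x, ← integral_const_mul]
    refine integral_congr_ae (Eventually.of_forall fun y => ?_)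
    simp only [wR_sub hσ hh R y]
  rw [EW, EW, ← mul_div_mul_left _ _ hσn.ne', h1, h2, mul_div_mul_left _ _ hzn.ne']

/-! ### the variance -/

theorem vh_eq {h f : ℝ → ℝ} {σ z m : ℝ} (hσ : 0 < σ) (hz : 0 < z) (hf : ND f)
    (hh : ∀ s, h s = z * f ((s - m) / σ)) (hm : mh h = m) : vh h = σ ^ 2 := by
  have i1 : Integrable fun s => s * f s := by
    refine Integrable.mono' (hf.int0.add hf.int2)
      (measurable_id.mul hf.cont.measurable).aestronglyMeasurable
      (Eventually.of_forall fun s => ?_)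
    have hs := (hf.pos s).le
    simp only [Pi.add_apply]
    rw [Real.norm_eq_abs, abs_mul, abs_of_nonneg hs]
    have : |s| ≤ 1 + s ^ 2 := by
      nlinarith [sq_abs s, sq_nonneg (|s| - 1)]
    nlinarith
  have e : ∀ t, h (m + σ * t) = z * f t := by
    intro t
    rw [hh]
    congr 2
    field_simp
    ring
  have h0 : ∫ s, h s = σ * z := by
    have := Pool.Agent.Y592.RG.sub_eq (G := h) (m := m) hσ
    simp only [e, integral_const_mul, hf.mass, mul_one] at this
    rw [this]
    field_simp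
  have h2 : ∫ s, s ^ 2 * h s = σ * z * (σ ^ 2 + m ^ 2) := by
    have := Pool.Agent.Y592.RG.sub_eq (G := fun s => s ^ 2 * h s) (m := m) hσ
    simp only [e] at this
    have h3 : ∫ t, (m + σ * t) ^ 2 * (z * f t) = z * (m ^ 2 + σ ^ 2) := by
      have h4 : ∀ t, (m + σ * t) ^ 2 * (z * f t) =
          z * m ^ 2 * f t + 2 * z * m * σ * (t * f t) + z * σ ^ 2 * (t ^ 2 * f t) := by
        intro t
        ring
      simp only [h4]
      have j1 : Integrable fun t => z * m ^ 2 * f t := hf.int0.const_mul _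
      have j2 : Integrable fun t => 2 * z * m * σ * (t * f t) := i1.const_mul _
      have j3 : Integrable fun t => z * σ ^ 2 * (t ^ 2 * f t) := hf.int2.const_mul _
      have j4 : Integrable fun t => z * m ^ 2 * f t + 2 * z * m * σ * (t * f t) := j1.add j2
      rw [integral_add j4 j3, integral_add j1 j2, integral_const_mul,
        integral_const_mul, integral_const_mul, hf.mass, hf.mean, hf.var]
      ring
    rw [h3] at this
    have h5 : ∫ s, s ^ 2 * h s = σ * (z * (m ^ 2 + σ ^ 2)) := by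
      rw [this]
      field_simp
    rw [h5]
    ring
  rw [vh, h0, h2, hm]
  field_simp
  ring

/-- OP3-PGD -/
theorem pgd (h : S_TRU) : S_PGD := by
  obtain ⟨C, hC1, hC⟩ := Pool.Agent.Y849.RG.one1
  refine ⟨4 * C ^ 2, by nlinarith, fun n R k hk g hg hb hl => ?_⟩
  have hik : Integrable k := by
    have h1 := hk.exps 0
    simp only [zero_mul, Real.exp_zero, mul_one] at h1
    have hmk : Measurable k := by
      obtain ⟨V', A, hA, hV, -, -⟩ := hk.pot
      have h2 : k = fun s => Real.exp (-(-Real.log (k s))) := by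
        funext s
        rw [neg_neg, Real.exp_log (hk.pos s)]
      have h3 : Continuous fun s => -Real.log (k s) :=
        continuous_iff_continuousAt.2 fun s => (hV s).continuousAt
      rw [h2]
      exact (Real.continuous_exp.comp h3.neg).measurable
    refine Integrable.mono' h1 hmk.aestronglyMeasurable (Eventually.of_forall fun s => ?_)
    rw [Real.norm_eq_abs, abs_of_pos (hk.pos s)]
    nlinarith [hk.pos s, sq_nonneg s, mul_nonneg (sq_nonneg s) (hk.pos s).le]
  have hk0 : 0 < ∫ s, k s := by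
    rw [integral_pos_iff_support_of_nonneg (fun s => (hk.pos s).le) hik]
    have : Function.support k = univ := by
      ext s
      simp [(hk.pos s).ne']
    rw [this]
    simp
  obtain ⟨σ, z, f, hσ, hz, hf, hkf, -⟩ := Pool.Agent.Y592.RG.norm1 k hk 0 (mh k) (by
    simp only [zero_mul, Real.exp_zero, mul_one]
    rw [mh]
    field_simp)
  simp only [zero_mul, Real.exp_zero, mul_one] at hkf
  have hv : vh k = σ ^ 2 := vh_eq hσ hz hf hkf rfl
  set m := mh k with hmdef
  have hσd : ∀ y : Eu (Fin n), HasFDerivAt (fun y : Eu (Fin n) => g (cst m + σ • y))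
      (σ • fderiv ℝ g (cst m + σ • y)) y := by
    intro y
    have h1 : HasFDerivAt (fun y : Eu (Fin n) => cst m + σ • y)
        (σ • ContinuousLinearMap.id ℝ (Eu (Fin n))) y := by
      exact ((hasFDerivAt_id y).const_smul σ).const_add _
    have h2 := ((hg.differentiable (by norm_num)) (cst m + σ • y)).hasFDerivAt.comp y h1
    refine h2.congr_fderiv ?_
    ext w
    simp
  have hg' : ContDiff ℝ 1 fun y : Eu (Fin n) => g (cst m + σ • y) := by
    refine hg.comp ?_
    fun_prop
  have hfd : ∀ y : Eu (Fin n), ‖fderiv ℝ (fun y : Eu (Fin n) => g (cst m + σ • y)) y‖ ^ 2 =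
      σ ^ 2 * ‖fderiv ℝ g (cst m + σ • y)‖ ^ 2 := by
    intro y
    rw [(hσd y).fderiv, norm_smul, Real.norm_eq_abs, abs_of_pos hσ, mul_pow]
  obtain ⟨B, hB⟩ := hb
  obtain ⟨L, hL⟩ := hl
  have key := norm_ineq h hf (hC f hf) R hg' ⟨B, fun y => hB _⟩ ⟨σ * L, fun y => by
    rw [(hσd y).fderiv, norm_smul, Real.norm_eq_abs, abs_of_pos hσ]
    exact mul_le_mul_of_nonneg_left (hL _) hσ.le⟩
  have e1 : VW (wR R k) g = VW (wR R f) fun y => g (cst m + σ • y) := by
    rw [VW, VW, EW_sub hσ hz hkf R, EW_sub hσ hz hkf R]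
  have e2 : EW (wR R f) (fun y => ‖fderiv ℝ (fun y : Eu (Fin n) => g (cst m + σ • y)) y‖ ^ 2) =
      σ ^ 2 * EW (wR R k) fun x => ‖fderiv ℝ g x‖ ^ 2 := by
    rw [EW_sub hσ hz hkf R]
    simp only [hfd, EW]
    rw [← mul_div_assoc, ← integral_const_mul]
    congr 1
    refine integral_congr_ae (Eventually.of_forall fun y => ?_)
    simp only
    ring
  rw [e1, hv]
  refine key.trans (le_of_eq ?_)
  rw [e2]
  ring

end Pool.Agent.R455.OP3
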